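import Pool.Agent.Helper970.V7.Defs

attribute [local instance] VN831.bcFunctor_additive VN831.viaAdd VN831.viaMod V7N.bcF_additive
  V7N.rmAdd V7N.rmMod

namespace V7N

open CategoryTheory

open scoped TensorProduct

theorem homology_zero {R : Type} [Ring R] (C : ChainComplex (ModuleCat.{0} R) ℕ) :
    Nonempty (C.homology 0 ≃ₗ[R] (C.X 0 ⧸ LinearMap.range (C.d 1 0).hom)) := by
  have e1 : C.homology 0 ≅ C.opcycles 0 := ChainComplex.isoHomologyι₀ C
  have e2 : C.opcycles 0 ≅ ModuleCat.of R (C.X 0 ⧸ LinearMap.range (C.d 1 0).hom) :=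
    Limits.IsColimit.coconePointUniqueUpToIso
      (C.opcyclesIsCokernel 1 0 (by simp)) (ModuleCat.cokernelIsColimit (C.d 1 0))
  exact ⟨(e1 ≪≫ e2).toLinearEquiv⟩

end V7N
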