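import Pool.Agent.Helper970.V7.Defs

attribute [local instance] VN831.bcFunctor_additive VN831.viaAdd VN831.viaMod V7N.bcF_additive
  V7N.rmAdd V7N.rmMod

set_option autoImplicit false



namespace V7N
open CategoryTheory
open scoped TensorProduct


theorem phi_evM_single {Γ W : Type} [Group Γ] [Ring W] (c : Γ →* W) (g : Γ) (n : ℤ) :
    evM c (MonoidAlgebra.single g n) = (n : W) * c g := by
  have h : evM c (MonoidAlgebra.single g n) =
      MonoidAlgebra.lift ℤ W Γ c (MonoidAlgebra.single g n) := rfl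
  rw [h, MonoidAlgebra.lift_single, zsmul_eq_mul]

theorem phi_inc_single {K Γ : Type} [Group K] [Group Γ] (i : K →* Γ) (g : K) (n : ℤ) :
    inc i (MonoidAlgebra.single g n) = MonoidAlgebra.single (i g) n := by
  have h : inc i (MonoidAlgebra.single g n) =
      MonoidAlgebra.mapDomain i (MonoidAlgebra.single g n) := rfl
  rw [h, MonoidAlgebra.mapDomain_single]

/-- the additive map on rows -/
noncomputable def phi_L {K Γ : Type} [Group K] [Group Γ] {R W : Type} [Ring R] [Ring W]
    (i : K →* Γ) (cW : Γ →* W) (j : R →+* W) (r : ℕ) : RM i r →+ (Fin r → VN831.Via j) where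
  toFun v := fun k =>
    (show VN831.Via j from evM cW ((show Fin r → MonoidAlgebra ℤ Γ from v) k))
  map_zero' := by
    funext k
    exact map_zero (evM cW)
  map_add' v w := by
    funext k
    exact map_add (evM cW) _ _

/-- the map on the tensor product -/
noncomputable def phi_F {K Γ : Type} [Group K] [Group Γ] {R W : Type} [Ring R] [Ring W]
    (i : K →* Γ) (cW : Γ →* W) (j : R →+* W) (r : ℕ) :
    R ⊗[ℤ] RM i r →ₗ[R] (Fin r → VN831.Via j) :=
  TensorProduct.AlgebraTensorModule.lift
    (LinearMap.toSpanSingleton R (RM i r →ₗ[ℤ] (Fin r → VN831.Via j))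
      (phi_L i cW j r).toIntLinearMap)

theorem phi_F_tmul {K Γ : Type} [Group K] [Group Γ] {R W : Type} [Ring R] [Ring W]
    (i : K →* Γ) (cW : Γ →* W) (j : R →+* W) (r : ℕ) (x : R) (v : RM i r) (k : Fin r) :
    phi_F i cW j r (x ⊗ₜ[ℤ] v) k =
      (show VN831.Via j from (j x * evM cW ((show Fin r → MonoidAlgebra ℤ Γ from v) k))) := rfl

theorem phi_F_rel {K Γ : Type} [Group K] [Group Γ] {R W : Type} [Ring R] [Ring W]
    (i : K →* Γ) (c : K →* R) (cW : Γ →* W) (j : R →+* W)
    (hc : ∀ k, j (c k) = cW (i k)) (r : ℕ) :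
    bcR c (RM i r) ≤ LinearMap.ker (phi_F i cW j r) := by
  rw [bcR, Submodule.span_le]
  rintro z ⟨x, g, v, rfl⟩
  show _ ∈ LinearMap.ker (phi_F i cW j r)
  rw [LinearMap.mem_ker, map_sub, sub_eq_zero]
  funext k
  rw [phi_F_tmul, phi_F_tmul]
  show j (x * c g) * evM cW ((show Fin r → MonoidAlgebra ℤ Γ from v) k) =
    j x * evM cW (inc i (MonoidAlgebra.single g 1) * (show Fin r → MonoidAlgebra ℤ Γ from v) k)
  rw [map_mul, map_mul, phi_inc_single, phi_evM_single, hc, Int.cast_one, one_mul, mul_assoc]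

/-- the induced map -/
noncomputable def phi_P {K Γ : Type} [Group K] [Group Γ] {R W : Type} [Ring R] [Ring W]
    (i : K →* Γ) (c : K →* R) (cW : Γ →* W) (j : R →+* W)
    (hc : ∀ k, j (c k) = cW (i k)) (r : ℕ) : BCG c (RM i r) →ₗ[R] (Fin r → VN831.Via j) :=
  Submodule.liftQ (bcR c (RM i r)) (phi_F i cW j r) (phi_F_rel i c cW j hc r)

theorem phi_P_mk {K Γ : Type} [Group K] [Group Γ] {R W : Type} [Ring R] [Ring W]
    (i : K →* Γ) (c : K →* R) (cW : Γ →* W) (j : R →+* W)
    (hc : ∀ k, j (c k) = cW (i k)) (r : ℕ) (x : R) (v : RM i r) (k : Fin r) :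
    phi_P i c cW j hc r (Submodule.Quotient.mk (x ⊗ₜ[ℤ] v)) k =
      (show VN831.Via j from (j x * evM cW ((show Fin r → MonoidAlgebra ℤ Γ from v) k))) := rfl

/-- basis elements -/
noncomputable def phi_e {K Γ : Type} [Group K] [Group Γ] (i : K →* Γ) (r : ℕ) (k : Fin r)
    (m : MonoidAlgebra ℤ Γ) : RM i r :=
  (Pi.single k m : Fin r → MonoidAlgebra ℤ Γ)

theorem phi_evM_mem {Γ : Type} [Group Γ] {R W : Type} [Ring R] [Ring W]
    (cW : Γ →* W) (j : R →+* W) (m : MonoidAlgebra ℤ Γ) :
    (show VN831.Via j from evM cW m) ∈ VN831.SR j cW := by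
  induction m using MonoidAlgebra.induction_linear with
  | zero =>
    have h : (show VN831.Via j from evM cW (0 : MonoidAlgebra ℤ Γ)) = 0 := map_zero (evM cW)
    rw [h]
    exact zero_mem _
  | add x y hx hy =>
    have h : (show VN831.Via j from evM cW (x + y)) =
      (show VN831.Via j from evM cW x) + (show VN831.Via j from evM cW y) :=
        map_add (evM cW) x y
    rw [h]
    exact add_mem hx hy
  | single g n =>
    have h : (show VN831.Via j from evM cW (MonoidAlgebra.single g n)) =
      n • (show VN831.Via j from cW g) := by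
        show evM cW (MonoidAlgebra.single g n) = _
        rw [phi_evM_single]
        exact (zsmul_eq_mul (cW g) n).symm
    rw [h]
    exact zsmul_mem (show (show VN831.Via j from cW g) ∈ VN831.SR j cW from
      Submodule.subset_span ⟨g, rfl⟩) n

theorem phi_range {K Γ : Type} [Group K] [Group Γ] {R W : Type} [Ring R] [Ring W]
    (i : K →* Γ) (c : K →* R) (cW : Γ →* W) (j : R →+* W)
    (hc : ∀ k, j (c k) = cW (i k)) (r : ℕ) (z : BCG c (RM i r)) :
    phi_P i c cW j hc r z ∈ (Submodule.pi Set.univ (fun _ : Fin r => VN831.SR j cW) :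
          Submodule R (Fin r → VN831.Via j)) := by
  obtain ⟨z, rfl⟩ := Submodule.Quotient.mk_surjective _ z
  induction z using TensorProduct.induction_on with
  | zero =>
    rw [Submodule.Quotient.mk_zero, map_zero]
    exact zero_mem _
  | tmul x v =>
    rw [Submodule.mem_pi]
    intro k _
    rw [phi_P_mk]
    exact Submodule.smul_mem _ x (phi_evM_mem cW j _)
  | add x y hx hy =>
    rw [Submodule.Quotient.mk_add, map_add]
    exact add_mem hx hy

theorem phi_surj {K Γ : Type} [Group K] [Group Γ] {R W : Type} [Ring R] [Ring W]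
    (i : K →* Γ) (c : K →* R) (cW : Γ →* W) (j : R →+* W)
    (hc : ∀ k, j (c k) = cW (i k)) (r : ℕ) (w : Fin r → VN831.Via j)
    (hw : ∀ k, w k ∈ VN831.SR j cW) :
    w ∈ LinearMap.range (phi_P i c cW j hc r) := by
  have h1 : ∀ (k : Fin r) (y : VN831.Via j), y ∈ VN831.SR j cW →
      (Pi.single k y : Fin r → VN831.Via j) ∈ LinearMap.range (phi_P i c cW j hc r) := by
    intro k y hy
    unfold VN831.SR at hy
    induction hy using Submodule.span_induction with
    | mem x hx =>
      obtain ⟨g, rfl⟩ := hx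
      refine ⟨Submodule.Quotient.mk ((1 : R) ⊗ₜ[ℤ] phi_e i r k (MonoidAlgebra.single g 1)), ?_⟩
      funext l
      rw [phi_P_mk]
      show j 1 * evM cW ((Pi.single k (MonoidAlgebra.single g 1) : Fin r → MonoidAlgebra ℤ Γ) l) = _
      rw [map_one, one_mul]
      by_cases hl : l = k
      · subst hl
        rw [Pi.single_eq_same, Pi.single_eq_same, phi_evM_single, Int.cast_one, one_mul]
      · rw [Pi.single_eq_of_ne hl, Pi.single_eq_of_ne hl]
        exact map_zero (evM cW)
    | zero =>
      rw [Pi.single_zero]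
      exact zero_mem _
    | add x y _ _ hx hy =>
      rw [Pi.single_add]
      exact add_mem hx hy
    | smul a x _ hx =>
      rw [Pi.single_smul]
      exact Submodule.smul_mem _ a hx
  have h2 : w = ∑ k, (Pi.single k (w k) : Fin r → VN831.Via j) := by
    rw [Finset.univ_sum_single]
  rw [h2]
  exact Submodule.sum_mem _ fun k _ => h1 k _ (hw k)

theorem phi_rel_eq {K Γ : Type} [Group K] [Group Γ] {R : Type} [Ring R]
    (i : K →* Γ) (c : K →* R) (r : ℕ) (g : K) (v : RM i r) :
    (Submodule.Quotient.mk ((1 : R) ⊗ₜ[ℤ] ((MonoidAlgebra.single g (1 : ℤ)) • v)) :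
      BCG c (RM i r)) = c g • Submodule.Quotient.mk ((1 : R) ⊗ₜ[ℤ] v) := by
  rw [← Submodule.Quotient.mk_smul, TensorProduct.smul_tmul', smul_eq_mul, mul_one]
  refine ((Submodule.Quotient.eq _).2 ?_).symm
  refine Submodule.subset_span ⟨1, g, v, ?_⟩
  rw [one_mul]

/-- the additive map `v ↦ 1 ⊗ v` -/
noncomputable def phi_A {K Γ : Type} [Group K] [Group Γ] {R : Type} [Ring R]
    (i : K →* Γ) (c : K →* R) (r : ℕ) : RM i r →+ BCG c (RM i r) where
  toFun v := Submodule.Quotient.mk ((1 : R) ⊗ₜ[ℤ] v)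
  map_zero' := by
    rw [TensorProduct.tmul_zero, Submodule.Quotient.mk_zero]
  map_add' v w := by
    rw [TensorProduct.tmul_add, Submodule.Quotient.mk_add]

/-- normal forms -/
noncomputable def phi_N {K Γ : Type} [Group K] [Group Γ] {R : Type} [Ring R]
    (i : K →* Γ) (c : K →* R) (r : ℕ) :
    ((Fin r × Quotient (QuotientGroup.rightRel i.range)) →₀ R) →ₗ[R] BCG c (RM i r) :=
  Finsupp.linearCombination R (fun p => phi_A i c r (phi_e i r p.1 (MonoidAlgebra.single p.2.out 1)))

theorem phi_N_mem1 {K Γ : Type} [Group K] [Group Γ] {R : Type} [Ring R]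
    (i : K →* Γ) (c : K →* R) (r : ℕ) (k : Fin r) (m : MonoidAlgebra ℤ Γ) :
    phi_A i c r (phi_e i r k m) ∈ LinearMap.range (phi_N i c r) := by
  induction m using MonoidAlgebra.induction_linear with
  | zero =>
    have h : phi_e i r k (0 : MonoidAlgebra ℤ Γ) = 0 := Pi.single_zero k
    rw [h, map_zero]
    exact zero_mem _
  | add x y hx hy =>
    have h : phi_e i r k (x + y) = phi_e i r k x + phi_e i r k y := by
      funext l
      show (Pi.single k (x + y) : Fin r → MonoidAlgebra ℤ Γ) l =
        (Pi.single k x : Fin r → MonoidAlgebra ℤ Γ) l +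
          (Pi.single k y : Fin r → MonoidAlgebra ℤ Γ) l
      by_cases hl : l = k
      · subst hl
        rw [Pi.single_eq_same, Pi.single_eq_same, Pi.single_eq_same]
      · rw [Pi.single_eq_of_ne hl, Pi.single_eq_of_ne hl, Pi.single_eq_of_ne hl, add_zero]
    rw [h, map_add]
    exact add_mem hx hy
  | single g n =>
    have h : phi_e i r k (MonoidAlgebra.single g n) =
        n • phi_e i r k (MonoidAlgebra.single g 1) := by
      unfold phi_e
      have h2 : (MonoidAlgebra.single g n : MonoidAlgebra ℤ Γ) =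
          n • (MonoidAlgebra.single g 1 : MonoidAlgebra ℤ Γ) := by
        rw [MonoidAlgebra.smul_single, smul_eq_mul, mul_one]
      rw [h2]
      funext l
      show (Pi.single k (n • (MonoidAlgebra.single g 1 : MonoidAlgebra ℤ Γ)) :
          Fin r → MonoidAlgebra ℤ Γ) l =
        n • (Pi.single k (MonoidAlgebra.single g 1 : MonoidAlgebra ℤ Γ) :
          Fin r → MonoidAlgebra ℤ Γ) l
      by_cases hl : l = k
      · subst hl
        rw [Pi.single_eq_same, Pi.single_eq_same]
      · rw [Pi.single_eq_of_ne hl, Pi.single_eq_of_ne hl, smul_zero]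
    rw [h, map_zsmul]
    refine zsmul_mem ?_ n
    set q : Quotient (QuotientGroup.rightRel i.range) := Quotient.mk _ g with hq
    have h3 : (QuotientGroup.rightRel i.range) q.out g := Quotient.mk_out (s := QuotientGroup.rightRel i.range) g
    rw [QuotientGroup.rightRel_apply] at h3
    obtain ⟨κ, hκ⟩ := h3
    have h4 : g = i κ * q.out := by rw [hκ, inv_mul_cancel_right]
    have h5 : phi_e i r k (MonoidAlgebra.single g 1) =
        (MonoidAlgebra.single κ (1 : ℤ)) • phi_e i r k (MonoidAlgebra.single q.out 1) := by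
      funext l
      show (Pi.single k (MonoidAlgebra.single g 1) : Fin r → MonoidAlgebra ℤ Γ) l =
        inc i (MonoidAlgebra.single κ 1) *
          (Pi.single k (MonoidAlgebra.single q.out 1) : Fin r → MonoidAlgebra ℤ Γ) l
      by_cases hl : l = k
      · subst hl
        rw [Pi.single_eq_same, Pi.single_eq_same, phi_inc_single,
          MonoidAlgebra.single_mul_single, one_mul, ← h4]
      · rw [Pi.single_eq_of_ne hl, Pi.single_eq_of_ne hl, mul_zero]
    have h6 : phi_A i c r (phi_e i r k (MonoidAlgebra.single g 1)) =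
        c κ • phi_A i c r (phi_e i r k (MonoidAlgebra.single q.out 1)) := by
      rw [h5]
      exact phi_rel_eq i c r κ _
    rw [h6]
    refine Submodule.smul_mem _ _ ⟨Finsupp.single (k, q) 1, ?_⟩
    unfold phi_N
    rw [Finsupp.linearCombination_single, one_smul]

theorem phi_N_surj {K Γ : Type} [Group K] [Group Γ] {R : Type} [Ring R]
    (i : K →* Γ) (c : K →* R) (r : ℕ) (z : BCG c (RM i r)) :
    z ∈ LinearMap.range (phi_N i c r) := by
  obtain ⟨z, rfl⟩ := Submodule.Quotient.mk_surjective _ z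
  induction z using TensorProduct.induction_on with
  | zero =>
    rw [Submodule.Quotient.mk_zero]
    exact zero_mem _
  | tmul x v =>
    have h1 : (Submodule.Quotient.mk (x ⊗ₜ[ℤ] v) : BCG c (RM i r)) = x • phi_A i c r v := by
      show _ = x • Submodule.Quotient.mk ((1 : R) ⊗ₜ[ℤ] v)
      rw [← Submodule.Quotient.mk_smul, TensorProduct.smul_tmul', smul_eq_mul, mul_one]
    rw [h1]
    refine Submodule.smul_mem _ _ ?_
    have h2 : v = ∑ k, phi_e i r k ((show Fin r → MonoidAlgebra ℤ Γ from v) k) :=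
      (Finset.univ_sum_single (show Fin r → MonoidAlgebra ℤ Γ from v)).symm
    rw [h2, map_sum]
    exact Submodule.sum_mem _ fun k _ => phi_N_mem1 i c r k _
  | add x y hx hy =>
    rw [Submodule.Quotient.mk_add]
    exact add_mem hx hy

theorem phi_inj_aux {K Γ : Type} [Group K] [Group Γ] {R W : Type} [Ring R] [Ring W]
    (i : K →* Γ) (c : K →* R) (cW : Γ →* W) (j : R →+* W)
    (hc : ∀ k, j (c k) = cW (i k)) (hind : VN831.CosetIndep j cW i.range) (r : ℕ)
    (a : (Fin r × Quotient (QuotientGroup.rightRel i.range)) →₀ R)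
    (ha : phi_P i c cW j hc r (phi_N i c r a) = 0) : a = 0 := by
  classical
  have e1 : ∀ k : Fin r, ∑ p ∈ a.support, (if p.1 = k then j (a p) * cW p.2.out else 0) = 0 := by
    intro k
    have h1 := congrFun ha k
    unfold phi_N at h1
    rw [Finsupp.linearCombination_apply, Finsupp.sum, map_sum, Finset.sum_apply] at h1
    refine Eq.trans (Finset.sum_congr rfl fun p _ => ?_) h1
    rw [map_smul]
    show _ = j (a p) * (j 1 * evM cW ((Pi.single p.1 (MonoidAlgebra.single p.2.out 1) :
      Fin r → MonoidAlgebra ℤ Γ) k))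
    rw [map_one, one_mul]
    split_ifs with hp
    · rw [← hp, Pi.single_eq_same, phi_evM_single, Int.cast_one, one_mul]
    · rw [Pi.single_eq_of_ne (Ne.symm hp), map_zero, mul_zero]
  by_contra hne
  obtain ⟨p₀, hp₀⟩ := Finsupp.support_nonempty_iff.2 hne
  obtain ⟨k, q⟩ := p₀
  have hinj : ∀ p ∈ a.support.filter (fun p => p.1 = k), ∀ p' ∈ a.support.filter (fun p => p.1 = k),
      p.2.out = p'.2.out → p = p' := by
    intro p hp p' hp' h
    have h1 := (Finset.mem_filter.1 hp).2
    have h2 := (Finset.mem_filter.1 hp').2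
    refine Prod.ext (h1.trans h2.symm) ?_
    rw [← Quotient.out_eq p.2, ← Quotient.out_eq p'.2, h]
  have hz := hind ((a.support.filter (fun p => p.1 = k)).image (fun p => p.2.out)) ?_
    (fun g => a (k, Quotient.mk _ g)) ?_ q.out ?_
  · have h2 : a (k, q) = 0 := by
      have h3 : a (k, Quotient.mk (QuotientGroup.rightRel i.range) q.out) = 0 := hz
      rwa [Quotient.out_eq] at h3
    exact (Finsupp.mem_support_iff.1 hp₀) h2
  · intro g hg h hh hgh hmem
    obtain ⟨p, hp, rfl⟩ := Finset.mem_image.1 hg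
    obtain ⟨p', hp', rfl⟩ := Finset.mem_image.1 hh
    apply hgh
    have h1 : p'.2 = p.2 := by
      rw [← Quotient.out_eq p.2, ← Quotient.out_eq p'.2]
      exact Quotient.sound (s := QuotientGroup.rightRel i.range)
        (QuotientGroup.rightRel_apply.2 hmem)
    rw [h1]
  · rw [Finset.sum_image hinj]
    rw [← e1 k, ← Finset.sum_filter]
    refine Finset.sum_congr rfl fun p hp => ?_
    have h1 := (Finset.mem_filter.1 hp).2
    have h2 : ((k, Quotient.mk (QuotientGroup.rightRel i.range) p.2.out) :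
        Fin r × Quotient (QuotientGroup.rightRel i.range)) = p :=
      Prod.ext h1.symm (Quotient.out_eq p.2)
    show j (a (k, Quotient.mk (QuotientGroup.rightRel i.range) p.2.out)) * _ = _
    rw [h2]
  · exact Finset.mem_image.2 ⟨(k, q), Finset.mem_filter.2 ⟨hp₀, rfl⟩, rfl⟩

theorem phi {K Γ : Type} [Group K] [Group Γ] {R W : Type} [Ring R] [Ring W]
    (i : K →* Γ) (hi : Function.Injective i) (c : K →* R) (cW : Γ →* W) (j : R →+* W)
    (hc : ∀ k, j (c k) = cW (i k)) (hind : VN831.CosetIndep j cW i.range) (r : ℕ) :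
    ∃ e : BCG c (RM i r) ≃ₗ[R]
        (Submodule.pi Set.univ (fun _ : Fin r => VN831.SR j cW) :
          Submodule R (Fin r → VN831.Via j)),
      ∀ (x : RM i r) (k : Fin r),
        ((e (Submodule.Quotient.mk ((1 : R) ⊗ₜ[ℤ] x))).1 k) =
          (show VN831.Via j from evM cW (x k)) := by
  have hinj : Function.Injective (phi_P i c cW j hc r) := by
    rw [← LinearMap.ker_eq_bot, LinearMap.ker_eq_bot']
    intro z hz
    obtain ⟨a, rfl⟩ := phi_N_surj i c r z
    rw [phi_inj_aux i c cW j hc hind r a hz, map_zero]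
  have hcod := phi_range i c cW j hc r
  let Φ := (phi_P i c cW j hc r).codRestrict
    (Submodule.pi Set.univ (fun _ : Fin r => VN831.SR j cW)) hcod
  have hb : Function.Bijective Φ := by
    constructor
    · intro z z' h
      exact hinj (congrArg Subtype.val h)
    · rintro ⟨w, hw⟩
      obtain ⟨z, hz⟩ := phi_surj i c cW j hc r w (fun k => (Submodule.mem_pi.1 hw) k trivial)
      exact ⟨z, Subtype.ext hz⟩
  refine ⟨LinearEquiv.ofBijective Φ hb, fun x k => ?_⟩
  show (phi_P i c cW j hc r (Submodule.Quotient.mk ((1 : R) ⊗ₜ[ℤ] x))) k = _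
  rw [phi_P_mk]
  show j 1 * _ = _
  rw [map_one, one_mul]

end V7N
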