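import Pool.Agent.Helper970.V7.Defs
import Pool.Agent.Helper970.V7.P_proj_RM

attribute [local instance] VN831.bcFunctor_additive VN831.viaAdd VN831.viaMod V7N.bcF_additive
  V7N.rmAdd V7N.rmMod

namespace V7N

open CategoryTheory

open scoped TensorProduct

theorem gen_ex0 {A : Type} [Ring A] (X : ℕ → ModuleCat.{0} A) (d : ∀ n, X (n + 1) ⟶ X n)
    (sq : ∀ n, d (n + 1) ≫ d n = 0) (Z : ModuleCat.{0} A) (e : X 0 ⟶ Z)
    (hde : d 0 ≫ e = 0)
    (h0 : ∀ v : X 0, e.hom v = 0 → ∃ w, (d 0).hom w = v) :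
    (ShortComplex.mk (d 0) e hde).Exact := by
  rw [ShortComplex.moduleCat_exact_iff]
  intro x hx
  obtain ⟨w, hw⟩ := h0 x hx
  exact ⟨w, hw⟩

theorem gen_exs {A : Type} [Ring A] (X : ℕ → ModuleCat.{0} A) (d : ∀ n, X (n + 1) ⟶ X n)
    (sq : ∀ n, d (n + 1) ≫ d n = 0) 
    (h1 : ∀ n (v : X (n + 1)), (d n).hom v = 0 → ∃ w, (d (n + 1)).hom w = v) (n : ℕ) :
    (ShortComplex.mk (d (n + 1)) (d n) (sq n)).Exact := by
  rw [ShortComplex.moduleCat_exact_iff]
  intro x hx
  obtain ⟨w, hw⟩ := h1 n x hx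
  exact ⟨w, hw⟩

theorem of_exactAt {A : Type} [Ring A] (X : ℕ → ModuleCat.{0} A) (d : ∀ n, X (n + 1) ⟶ X n)
    (sq : ∀ n, d (n + 1) ≫ d n = 0) 
    (h1 : ∀ n (v : X (n + 1)), (d n).hom v = 0 → ∃ w, (d (n + 1)).hom w = v) (n : ℕ) :
    (ChainComplex.of X d sq).ExactAt (n + 1) := by
  rw [HomologicalComplex.exactAt_iff' _ (n + 1 + 1) (n + 1) n (by simp) (by simp)]
  rw [ShortComplex.moduleCat_exact_iff]
  intro x hx
  have e1 : (ChainComplex.of X d sq).d (n + 1) n = d n := ChainComplex.of_d _ _ _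
  have e2 : (ChainComplex.of X d sq).d (n + 1 + 1) (n + 1) = d (n + 1) := ChainComplex.of_d _ _ _
  have hx' : (d n).hom x = 0 := by
    rw [← e1]
    exact hx
  obtain ⟨w, hw⟩ := h1 n x hx'
  refine ⟨w, ?_⟩
  have hw2 : ((ChainComplex.of X d sq).d (n + 1 + 1) (n + 1)).hom w = x := by
    rw [e2]
    exact hw
  exact hw2

set_option backward.defeqAttrib.useBackward true in
set_option backward.isDefEq.respectTransparency false in
theorem gen_res {A : Type} [Ring A] (X : ℕ → ModuleCat.{0} A) (d : ∀ n, X (n + 1) ⟶ X n)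
    (sq : ∀ n, d (n + 1) ≫ d n = 0) (Z : ModuleCat.{0} A) (e : X 0 ⟶ Z)
    (hproj : ∀ n, Projective (X n)) (hde : d 0 ≫ e = 0)
    (he : Function.Surjective e.hom)
    (h0 : ∀ v : X 0, e.hom v = 0 → ∃ w, (d 0).hom w = v)
    (h1 : ∀ n (v : X (n + 1)), (d n).hom v = 0 → ∃ w, (d (n + 1)).hom w = v) :
    ∃ P : ProjectiveResolution Z, P.complex = ChainComplex.of X d sq := by
  have hd10 : (ChainComplex.of X d sq).d 1 0 = d 0 := ChainComplex.of_d (V := ModuleCat.{0} A) (X := X) (d := d) (j := 0)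
  have hde' : (ChainComplex.of X d sq).d 1 0 ≫ e = 0 := by rw [hd10]; exact hde
  have hf0 : (((ChainComplex.of X d sq).toSingle₀Equiv Z).symm ⟨e, hde'⟩).f 0 = e :=
    ChainComplex.toSingle₀Equiv_symm_apply_f_zero _ _
  refine ⟨{ complex := ChainComplex.of X d sq
            projective := fun n => hproj n
            π := (ChainComplex.toSingle₀Equiv _ _).symm ⟨e, hde'⟩
            quasiIso := ⟨fun n => ?_⟩ }, rfl⟩
  cases n with
  | zero =>
    rw [ChainComplex.quasiIsoAt₀_iff, ShortComplex.quasiIso_iff_of_zeros']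
    · dsimp
      refine (ShortComplex.exact_and_epi_g_iff_of_iso ?_).2
        ⟨gen_ex0 X d sq Z e hde h0, (ModuleCat.epi_iff_surjective e).2 he⟩
      refine ShortComplex.isoMk (Iso.refl _) (Iso.refl _) (Iso.refl _) ?_ ?_
      · exact (Category.id_comp _).trans (hd10.symm.trans (Category.comp_id _).symm)
      · exact (Category.id_comp _).trans (hf0.symm.trans (Category.comp_id _).symm)
    all_goals rfl
  | succ n =>
    rw [quasiIsoAt_iff_exactAt']
    · exact of_exactAt X d sq h1 n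
    · apply ChainComplex.exactAt_succ_single_obj

theorem inc_of {K Γ : Type} [Group K] [Group Γ] (i : K →* Γ) (k : K) :
    inc i (MonoidAlgebra.of ℤ K k) = MonoidAlgebra.of ℤ Γ (i k) := by
  simp [inc, MonoidAlgebra.of]

theorem eps_lin {K Γ : Type} [Group K] [Group Γ] (C : FreeRes Γ) (i : K →* Γ)
    (c : MonoidAlgebra ℤ K) (v : Fin (C.r 0) → MonoidAlgebra ℤ Γ) :
    C.ε (fun l => inc i c * v l) = augG K c * C.ε v := by
  induction c using MonoidAlgebra.induction_on with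
  | of k =>
    have h2 : augG K (MonoidAlgebra.of ℤ K k) = 1 := by
      simp [augG]
    rw [inc_of, h2, one_mul]
    exact C.ε_smul (i k) v
  | add a b ha hb =>
    have h1 : (fun l => inc i (a + b) * v l) =
        (fun l => inc i a * v l) + (fun l => inc i b * v l) := by
      funext l
      simp [add_mul]
    rw [h1, map_add, ha, hb, map_add, add_mul]
  | smul r a ha =>
    have h1 : (fun l => inc i (r • a) * v l) = r • (fun l => inc i a * v l) := by
      funext l
      simp [mul_assoc]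
    have h2 : augG K (r • a) = r * augG K a := by
      rw [map_zsmul]; simp
    rw [h1, map_zsmul, ha, h2]
    simp [mul_assoc]

theorem sqK {K Γ : Type} [Group K] [Group Γ] (C : FreeRes Γ) (i : K →* Γ) (n : ℕ) :
    ModuleCat.ofHom (dm i (C.d (n + 1))) ≫ ModuleCat.ofHom (dm i (C.d n)) = 0 := by
  rw [← ModuleCat.ofHom_comp, dm_comp]
  rfl

noncomputable def epsL {K Γ : Type} [Group K] [Group Γ] (C : FreeRes Γ) (i : K →* Γ) :
    RM i (C.r 0) →ₗ[MonoidAlgebra ℤ K] trivG K where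
  toFun v := (show ℤ from C.ε (show Fin (C.r 0) → MonoidAlgebra ℤ Γ from v))
  map_add' v w := C.ε.map_add _ _
  map_smul' c v := eps_lin C i c v

noncomputable def epsH {K Γ : Type} [Group K] [Group Γ] (C : FreeRes Γ) (i : K →* Γ) :
    ModuleCat.of (MonoidAlgebra ℤ K) (RM i (C.r 0)) ⟶ trivG K :=
  ModuleCat.ofHom (X := RM i (C.r 0)) (Y := trivG K) (epsL C i)

theorem proj_res {K Γ : Type} [Group K] [Group Γ] (C : FreeRes Γ) (i : K →* Γ)
    (hi : Function.Injective i) :
    ∃ P : ProjectiveResolution (trivG K), P.complex = resC C i := by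
  refine gen_res (fun n => ModuleCat.of (MonoidAlgebra ℤ K) (RM i (C.r n)))
    (fun n => ModuleCat.ofHom (dm i (C.d n))) (sqK C i) (trivG K)
    (epsH C i) ?_ ?_ ?_ ?_ ?_
  · intro n
    have := proj_RM i hi (C.r n)
    exact (IsProjective.iff_projective (R := MonoidAlgebra ℤ K) (RM i (C.r n))).1 this
  · apply ModuleCat.hom_ext
    apply LinearMap.ext
    intro v
    exact (C.exact_zero _).2 ⟨v, rfl⟩
  · intro z
    obtain ⟨v, hv⟩ := C.ε_surj z
    exact ⟨v, hv⟩
  · intro v hv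
    obtain ⟨w, hw⟩ := (C.exact_zero v).1 hv
    exact ⟨w, hw.symm⟩
  · intro n v hv
    obtain ⟨w, hw⟩ := (C.exact_succ n v).1 hv
    exact ⟨w, hw.symm⟩

end V7N
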