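import Pool.Agent.Helper970.V7.Defs

attribute [local instance] VN831.bcFunctor_additive VN831.viaAdd VN831.viaMod V7N.bcF_additive
  V7N.rmAdd V7N.rmMod

namespace V7N

open CategoryTheory

open scoped TensorProduct

theorem homology_succ {R : Type} [Ring R] (C : ChainComplex (ModuleCat.{0} R) ℕ) (n : ℕ) :
    Nonempty (C.homology (n + 1) ≃ₗ[R]
      ((LinearMap.ker (C.d (n + 1) n).hom) ⧸
        (LinearMap.range (C.d (n + 1 + 1) (n + 1)).hom).submoduleOf
          (LinearMap.ker (C.d (n + 1) n).hom))) := by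
  have e1 : C.homology (n + 1) ≅ (C.sc' (n + 1 + 1) (n + 1) n).homology :=
    C.homologyIsoSc' (n + 1 + 1) (n + 1) n (by simp) (by simp)
  have e2 := (C.sc' (n + 1 + 1) (n + 1) n).moduleCatHomologyIso
  have e3 : C.homology (n + 1) ≃ₗ[R]
      (LinearMap.ker (C.d (n + 1) n).hom) ⧸
        LinearMap.range (C.sc' (n + 1 + 1) (n + 1) n).moduleCatToCycles :=
    (e1 ≪≫ e2).toLinearEquiv
  refine ⟨e3.trans (Submodule.quotEquivOfEq _ _ ?_)⟩
  ext ⟨x, hx⟩
  constructor
  · rintro ⟨y, hy⟩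
    exact ⟨y, congrArg Subtype.val hy⟩
  · rintro ⟨y, hy⟩
    exact ⟨y, Subtype.ext hy⟩

end V7N
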