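import Pool.Agent.Helper970.V7.Defs
import Pool.Agent.Helper970.V7.P_proj_res
import Pool.Agent.Helper970.V7.P_phi
import Pool.Agent.Helper970.V7.P_homology_zero
import Pool.Agent.Helper970.V7.P_v7_succ

attribute [local instance] VN831.bcFunctor_additive VN831.viaAdd VN831.viaMod V7N.bcF_additive
  V7N.rmAdd V7N.rmMod

namespace V7N

open CategoryTheory

open scoped TensorProduct

theorem tz_key {K Γ : Type} [Group K] [Group Γ] {R W : Type} [Ring R] [Ring W]
    (i : K →* Γ) (hi : Function.Injective i) (c : K →* R) (cW : Γ →* W) (j : R →+* W)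
    (hc : ∀ k, j (c k) = cW (i k)) (hind : VN831.CosetIndep j cW i.range)
    {a b : ℕ} (M : Matrix (Fin a) (Fin b) (MonoidAlgebra ℤ Γ))
    (B : Matrix (Fin b) (Fin 0) W) :
    Nonempty ((BCG c (RM i b) ⧸ LinearMap.range (bcM c (dm i M))) ≃ₗ[R]
      VN831.HR j cW (M.map (evM cW)) B) := by
  obtain ⟨e1, h1⟩ := phi i hi c cW j hc hind a
  obtain ⟨e0, h0⟩ := phi i hi c cW j hc hind b
  have hZ : (Submodule.pi Set.univ (fun _ : Fin b => VN831.SR j cW) :
      Submodule R (Fin b → VN831.Via j)) = VN831.ZR j cW B := by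
    ext v
    constructor
    · intro h
      exact ⟨h, Subsingleton.elim (α := Fin 0 → VN831.Via j) _ _⟩
    · intro h
      exact h.1
  refine ⟨Submodule.Quotient.equiv _ _ (e0.trans (LinearEquiv.ofEq _ _ hZ)) ?_⟩
  ext ⟨v, hv⟩
  constructor
  · rintro ⟨y, ⟨x, rfl⟩, hy⟩
    refine ⟨(e1 x : Fin a → VN831.Via j), (e1 x).2, ?_⟩
    rw [← ts_mat i c cW j M e1 e0 h1 h0 x]
    exact (congrArg Subtype.val hy)
  · rintro ⟨w, hw, hv2⟩
    refine ⟨bcM c (dm i M) (e1.symm ⟨w, hw⟩), ⟨_, rfl⟩, ?_⟩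
    apply Subtype.ext
    change (e0 (bcM c (dm i M) (e1.symm ⟨w, hw⟩)) : Fin b → VN831.Via j) = v
    rw [ts_mat i c cW j M e1 e0 h1 h0, LinearEquiv.apply_symm_apply]
    exact hv2

theorem tz_cx {K Γ : Type} [Group K] [Group Γ] {R W : Type} [Ring R] [Ring W]
    (C : FreeRes Γ)
    (i : K →* Γ) (hi : Function.Injective i) (c : K →* R) (cW : Γ →* W) (j : R →+* W)
    (hc : ∀ k, j (c k) = cW (i k)) (hind : VN831.CosetIndep j cW i.range)
    (D : ChainComplex (ModuleCat.{0} (MonoidAlgebra ℤ K)) ℕ) (hD : D = resC C i) :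
    Nonempty ((((bcF c).mapHomologicalComplex _).obj D).homology 0 ≃ₗ[R]
      VN831.HR j cW ((C.d 0).map (evM cW))
        ((0 : Matrix (Fin (C.r 0)) (Fin 0) (MonoidAlgebra ℤ Γ)).map (evM cW))) := by
  subst hD
  obtain ⟨e⟩ := homology_zero (((bcF c).mapHomologicalComplex _).obj (resC C i))
  obtain ⟨e'⟩ := tz_key i hi c cW j hc hind (C.d 0)
    ((0 : Matrix (Fin (C.r 0)) (Fin 0) (MonoidAlgebra ℤ Γ)).map (evM cW))
  have hd : (resC C i).d 1 0 = ModuleCat.ofHom (dm i (C.d 0)) := ChainComplex.of_d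
    (fun n => ModuleCat.of (MonoidAlgebra ℤ K) (RM i (C.r n)))
    (fun n => ModuleCat.ofHom (dm i (C.d n))) 0
  have hd' : ((((bcF c).mapHomologicalComplex _).obj (resC C i)).d 1 0).hom =
      bcM c (dm i (C.d 0)) := by
    change (bcM c ((resC C i).d 1 0).hom) = _
    rw [hd]
    rfl
  refine ⟨e.trans ((Submodule.quotEquivOfEq _ _ ?_).trans e')⟩
  rw [hd']
  rfl

theorem v7_zero {K Γ : Type} [Group K] [Group Γ] {R W : Type} [Ring R] [Ring W]
    (C : FreeRes Γ)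
    (i : K →* Γ) (hi : Function.Injective i) (c : K →* R) (cW : Γ →* W) (j : R →+* W)
    (hc : ∀ k, j (c k) = cW (i k)) (hind : VN831.CosetIndep j cW i.range) :
    Nonempty ((((bcF c).leftDerived 0).obj (trivG K)) ≃ₗ[R]
      VN831.HR j cW ((C.d 0).map (evM cW))
        ((0 : Matrix (Fin (C.r 0)) (Fin 0) (MonoidAlgebra ℤ Γ)).map (evM cW))) := by
  obtain ⟨P, hP⟩ := proj_res C i hi
  obtain ⟨e⟩ := tz_cx C i hi c cW j hc hind P.complex hP
  exact ⟨(P.isoLeftDerivedObj (bcF c) 0).toLinearEquiv.trans e⟩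

end V7N
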